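import Pool.Agent.Q107.GPm.Final

/-!
# Lower general position numbers of Cartesian products

The inequality `gp⁻(G □ H) ≥ min {gp⁻(G), gp⁻(H)}` is false. For every `n` there are finite connected
graphs `G`, `H` (a complete graph and a graph with `6 + 3 n` vertices) with `gp⁻(G), gp⁻(H) ≥ n` and
`gp⁻(G □ H) ≤ 6`.
-/

namespace Pool.Agent.Results.MP_f79b2b_co.ProductNotBounded

open SimpleGraph

universe u

/-- The vertices `x, y, z` lie on a common shortest path: a walk from `a` to `b` whose length is the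
distance of `a` and `b`. -/
def OnGeodesic {V : Type u} (G : SimpleGraph V) (x y z : V) : Prop :=
  ∃ (a b : V) (p : G.Walk a b), p.length = G.dist a b ∧
    x ∈ p.support ∧ y ∈ p.support ∧ z ∈ p.support

/-- `S` is a general position set: no three vertices of `S` lie on a common shortest path. -/
def GenPos {V : Type u} (G : SimpleGraph V) (S : Finset V) : Prop :=
  ∀ x ∈ S, ∀ y ∈ S, ∀ z ∈ S, x ≠ y → y ≠ z → x ≠ z → ¬ OnGeodesic G x y z

/-- `S` is a maximal general position set. -/
def MaxGenPos {V : Type u} (G : SimpleGraph V) (S : Finset V) : Prop :=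
  GenPos G S ∧ ∀ T : Finset V, GenPos G T → S ⊆ T → T = S

/-- The lower general position number `gp⁻(G)`: the least size of a maximal general position set. -/
noncomputable def gpMinus {V : Type u} (G : SimpleGraph V) : ℕ :=
  sInf {k | ∃ S : Finset V, MaxGenPos G S ∧ S.card = k}

/-- (1) The inequality `gp⁻(G □ H) ≥ min {gp⁻(G), gp⁻(H)}` fails for some finite graphs.
(2) The gap is unbounded: both factors can have arbitrarily large `gp⁻` while the product has
`gp⁻ ≤ 6`. -/
theorem result :
    (¬ ∀ (V W : Type) [Fintype V] [Fintype W] (G : SimpleGraph V) (H : SimpleGraph W),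
      min (gpMinus G) (gpMinus H) ≤ gpMinus (G □ H)) ∧
    (∀ n : ℕ, ∃ (V W : Type) (_ : Fintype V) (_ : Fintype W) (G : SimpleGraph V)
      (H : SimpleGraph W), G.Connected ∧ H.Connected ∧ n ≤ gpMinus G ∧ n ≤ gpMinus H ∧
        gpMinus (G □ H) ≤ 6) := by
  have key : ∀ n : ℕ, (⊤ : SimpleGraph (Fin (n + 3))).Connected ∧ (Q107.GPm.HG n).Connected ∧
      n ≤ gpMinus (⊤ : SimpleGraph (Fin (n + 3))) ∧ n ≤ gpMinus (Q107.GPm.HG n) ∧
      gpMinus ((⊤ : SimpleGraph (Fin (n + 3))) □ (Q107.GPm.HG n)) ≤ 6 := fun n =>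
    ⟨connected_top, Q107.GPm.connected n, Q107.GPm.top_ge n, Q107.GPm.HG_ge n,
      Q107.GPm.prod_le n n⟩
  constructor
  · intro h
    have h7 := h (Fin (7 + 3)) (Q107.GPm.W 7) ⊤ (Q107.GPm.HG 7)
    obtain ⟨_, _, h1, h2, h3⟩ := key 7
    have := le_min h1 h2
    omega
  · intro n
    exact ⟨Fin (n + 3), Q107.GPm.W n, inferInstance, inferInstance, ⊤, Q107.GPm.HG n, key n⟩

end Pool.Agent.Results.MP_f79b2b_co.ProductNotBounded
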